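import Pool.Agent.Y982.BF.Mono

/-!
# The fixed points between `q` and `q~` contain a totally ordered interval joining `q` and `q~`

The definitions `gen`, `qGlobal`, `qPartial` are those of the starting library
(`Pool.Agent.H632R3.BranchGen`), `Irred` is in `Pool.Agent.Y982.BF.Mono`.
-/

open Pool.Agent.H632R3.Branch Pool.Agent.Y982.BF
open Filter Topology Set

namespace Pool.Agent.Results.MP_34b196_pr.ArcOfFixedPoints

/-- For every multitype branching process with countably many types (irreducible or not) with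
`q ≠ q~`: (1) the set of fixed points between `q` and `q~` has the cardinality of the continuum;
(2) for every type `x₀` with `q x₀ < q~ x₀` it contains a totally ordered copy of the interval
`[q x₀, q~ x₀]`, from `q` to `q~`, parametrized by the coordinate `x₀`; (3) for an irreducible
process with `q > 0` this family is an arc: it is continuous, and every coordinate is Lipschitz and
strictly increasing. -/
theorem result (X : Type) [Countable X] (μ : X → PMF (X →₀ ℕ)) (hne : qGlobal μ ≠ qPartial μ) :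
    Cardinal.mk {s : X → ℝ // (∀ x, 0 ≤ s x ∧ s x ≤ 1) ∧ gen μ s = s ∧
      qGlobal μ ≤ s ∧ s ≤ qPartial μ} = Cardinal.continuum ∧
    (∃ x₀, qGlobal μ x₀ < qPartial μ x₀) ∧
    (∀ x₀, qGlobal μ x₀ < qPartial μ x₀ → ∃ s : ℝ → X → ℝ,
      s (qGlobal μ x₀) = qGlobal μ ∧ s (qPartial μ x₀) = qPartial μ ∧
      (∀ c ∈ Icc (qGlobal μ x₀) (qPartial μ x₀), (∀ x, 0 ≤ s c x ∧ s c x ≤ 1) ∧
        gen μ (s c) = s c ∧ qGlobal μ ≤ s c ∧ s c ≤ qPartial μ ∧ s c x₀ = c) ∧
      StrictMonoOn s (Icc (qGlobal μ x₀) (qPartial μ x₀)) ∧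
      (Irred μ → (∀ x, 0 < qGlobal μ x) →
        ContinuousOn s (Icc (qGlobal μ x₀) (qPartial μ x₀)) ∧
        ∀ x, StrictMonoOn (fun c => s c x) (Icc (qGlobal μ x₀) (qPartial μ x₀)) ∧
          ∃ K : ℝ, ∀ c ∈ Icc (qGlobal μ x₀) (qPartial μ x₀),
            ∀ c' ∈ Icc (qGlobal μ x₀) (qPartial μ x₀), |s c x - s c' x| ≤ K * |c - c'|)) := by
  have hexx : ∃ x0, qGlobal μ x0 < qPartial μ x0 := by
    by_contra hcon
    push Not at hcon
    exact hne (le_antisymm (qGlobal_le μ) hcon)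
  have hchain : ∀ x₀, qGlobal μ x₀ < qPartial μ x₀ → ∃ s : ℝ → X → ℝ,
      s (qGlobal μ x₀) = qGlobal μ ∧ s (qPartial μ x₀) = qPartial μ ∧
      (∀ c ∈ Icc (qGlobal μ x₀) (qPartial μ x₀), (∀ x, 0 ≤ s c x ∧ s c x ≤ 1) ∧
        gen μ (s c) = s c ∧ qGlobal μ ≤ s c ∧ s c ≤ qPartial μ ∧ s c x₀ = c) ∧
      StrictMonoOn s (Icc (qGlobal μ x₀) (qPartial μ x₀)) := by
    intro x₀ hlt
    obtain ⟨s, hs, hsm⟩ := core_mono (gen_good μ) (qGlobal_box μ) (qPartial_box μ) (qGlobal_le μ)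
      (qGlobal_fixed μ) (qPartial_fixed μ) (qGlobal_tendsto μ) (qPartial_trunc μ) x₀
    let r : ℝ → X → ℝ := fun c =>
      if c ≤ qGlobal μ x₀ then qGlobal μ else if qPartial μ x₀ ≤ c then qPartial μ else s c
    have r1 : ∀ c, c ≤ qGlobal μ x₀ → r c = qGlobal μ := fun c hc => by simp [r, hc]
    have r2 : ∀ c, qPartial μ x₀ ≤ c → r c = qPartial μ := fun c hc => by
      have h : ¬ c ≤ qGlobal μ x₀ := not_le.2 (hlt.trans_le hc)
      simp [r, hc, h]
    have r3 : ∀ c ∈ Ioo (qGlobal μ x₀) (qPartial μ x₀), r c = s c := fun c hc => by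
      have h1 : ¬ c ≤ qGlobal μ x₀ := not_le.2 hc.1
      have h2 : ¬ qPartial μ x₀ ≤ c := not_le.2 hc.2
      simp [r, h1, h2]
    have hr : ∀ c ∈ Icc (qGlobal μ x₀) (qPartial μ x₀), (∀ x, 0 ≤ r c x ∧ r c x ≤ 1) ∧
        gen μ (r c) = r c ∧ qGlobal μ ≤ r c ∧ r c ≤ qPartial μ ∧ r c x₀ = c := by
      intro c hc
      rcases hc.1.eq_or_lt with h | h
      · rw [r1 c h.symm.le]
        exact ⟨qGlobal_box μ, qGlobal_fixed μ, le_rfl, qGlobal_le μ, h⟩
      · rcases hc.2.eq_or_lt with h' | h'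
        · rw [r2 c h'.symm.le]
          exact ⟨qPartial_box μ, qPartial_fixed μ, qGlobal_le μ, le_rfl, h'.symm⟩
        · rw [r3 c ⟨h, h'⟩]
          exact hs c ⟨h, h'⟩
    refine ⟨r, r1 _ le_rfl, r2 _ le_rfl, hr, ?_⟩
    intro c hc c' hc' hcc
    have hle : r c ≤ r c' := by
      rcases hc.1.eq_or_lt with h | h
      · rw [r1 c h.symm.le]
        exact (hr c' hc').2.2.1
      · rcases hc'.2.eq_or_lt with h' | h'
        · rw [r2 c' h'.symm.le]
          exact (hr c hc).2.2.2.1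
        · have m1 : c ∈ Ioo (qGlobal μ x₀) (qPartial μ x₀) := ⟨h, hcc.trans h'⟩
          have m2 : c' ∈ Ioo (qGlobal μ x₀) (qPartial μ x₀) := ⟨h.trans hcc, h'⟩
          rw [r3 c m1, r3 c' m2]
          exact hsm c m1 c' m2 hcc.le
    refine lt_of_le_of_ne hle fun heq => ?_
    have h1 := (hr c hc).2.2.2.2
    have h2 := (hr c' hc').2.2.2.2
    rw [heq, h2] at h1
    exact hcc.ne' h1
  refine ⟨?_, hexx, fun x₀ hlt => ?_⟩
  · apply le_antisymm
    · refine (Cardinal.mk_subtype_le _).trans ?_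
      have h1 : Cardinal.mk (X → ℝ) = Cardinal.mk ℝ ^ Cardinal.mk X := by
        simp
      rw [h1, Cardinal.mk_real]
      calc Cardinal.continuum ^ Cardinal.mk X ≤ Cardinal.continuum ^ Cardinal.aleph0 :=
            Cardinal.power_le_power_left Cardinal.continuum_ne_zero (Cardinal.mk_le_aleph0)
        _ = Cardinal.continuum := Cardinal.continuum_power_aleph0
    · obtain ⟨x0, hx0⟩ := hexx
      obtain ⟨s, -, -, hs, hsm⟩ := hchain x0 hx0
      have h2 : Cardinal.mk (Set.Icc (qGlobal μ x0) (qPartial μ x0)) = Cardinal.continuum :=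
        Cardinal.mk_Icc_real hx0
      rw [← h2]
      refine Cardinal.mk_le_of_injective (f := fun c => ⟨s c.1, (hs c.1 c.2).1, (hs c.1 c.2).2.1,
        (hs c.1 c.2).2.2.1, (hs c.1 c.2).2.2.2.1⟩) ?_
      intro c c' h
      have h3 : s c.1 = s c'.1 := congrArg Subtype.val h
      exact Subtype.ext (hsm.injOn c.2 c'.2 h3)
  · obtain ⟨s, hs1, hs2, hs, hsm⟩ := hchain x₀ hlt
    refine ⟨s, hs1, hs2, hs, hsm, fun hirr hq => ?_⟩
    have hle : ∀ c ∈ Icc (qGlobal μ x₀) (qPartial μ x₀),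
        ∀ c' ∈ Icc (qGlobal μ x₀) (qPartial μ x₀), c ≤ c' → s c ≤ s c' := by
      intro c hc c' hc' hcc
      exact hsm.monotoneOn hc hc' hcc
    have hlip : ∀ x, ∃ K : ℝ, 0 < K ∧ ∀ c ∈ Icc (qGlobal μ x₀) (qPartial μ x₀),
        ∀ c' ∈ Icc (qGlobal μ x₀) (qPartial μ x₀), |s c x - s c' x| ≤ K * |c - c'| := by
      intro x
      obtain ⟨K, hK, hKs⟩ := lip μ hq (hirr x₀ x)
      refine ⟨K, hK, ?_⟩
      have key : ∀ c ∈ Icc (qGlobal μ x₀) (qPartial μ x₀),
          ∀ c' ∈ Icc (qGlobal μ x₀) (qPartial μ x₀), c ≤ c' →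
            |s c x - s c' x| ≤ K * |c - c'| := by
        intro c hc c' hc' hcc
        have h1 := hKs (s c) (s c') (hs c hc).1 (hs c' hc').1 (hs c hc).2.1 (hs c' hc').2.1
          (hs c hc).2.2.1 (hle c hc c' hc' hcc)
        rw [(hs c hc).2.2.2.2, (hs c' hc').2.2.2.2] at h1
        have h2 := hle c hc c' hc' hcc x
        rw [abs_sub_comm, abs_of_nonneg (sub_nonneg.2 h2), abs_sub_comm c c',
          abs_of_nonneg (sub_nonneg.2 hcc)]
        exact h1
      intro c hc c' hc'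
      rcases le_total c c' with h | h
      · exact key c hc c' hc' h
      · rw [abs_sub_comm, abs_sub_comm c c']
        exact key c' hc' c hc h
    refine ⟨?_, fun x => ⟨?_, ?_⟩⟩
    · rw [continuousOn_pi]
      intro x
      obtain ⟨K, hK, hKs⟩ := hlip x
      refine LipschitzOnWith.continuousOn (K := ⟨K, hK.le⟩) ?_
      refine LipschitzOnWith.of_dist_le_mul fun c hc c' hc' => ?_
      rw [Real.dist_eq, Real.dist_eq]
      exact hKs c hc c' hc'
    · intro c hc c' hc' hcc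
      have h2 := hle c hc c' hc' hcc.le x
      refine lt_of_le_of_ne h2 fun heq => ?_
      obtain ⟨K, hK, hKs⟩ := lip μ hq (hirr x x₀)
      have h1 := hKs (s c) (s c') (hs c hc).1 (hs c' hc').1 (hs c hc).2.1 (hs c' hc').2.1
          (hs c hc).2.2.1 (hle c hc c' hc' hcc.le)
      have heq' : s c x = s c' x := heq
      rw [(hs c hc).2.2.2.2, (hs c' hc').2.2.2.2, heq', sub_self, mul_zero] at h1
      linarith
    · obtain ⟨K, -, hKs⟩ := hlip x
      exact ⟨K, hKs⟩

end Pool.Agent.Results.MP_34b196_pr.ArcOfFixedPoints
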